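import Mathlib

/-!
# The small-subsets ballean of a group

Definitions: bounded sets, entourages, asymptotic disjointness, asymptotic neighbourhoods and
normality of the coarse space of a group given by the ideal of the subsets of smaller cardinality.
-/

set_option autoImplicit false

namespace Pool.Agent.Q307.Bal

open Cardinal

universe u

variable {G : Type u} [Group G]

/-- A subset of `G` is bounded if its cardinality is smaller than that of `G`. -/
def Bdd (S : Set G) : Prop := #S < #G

/-- `E` is an entourage: it is contained in `{(x, y) | y ∈ x A}` for some symmetric set `A` which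
contains the identity and has cardinality smaller than that of `G`. -/
def Entourage (E : Set (G × G)) : Prop :=
  ∃ A : Set G, #A < #G ∧ (1 : G) ∈ A ∧ (∀ a, a ∈ A ↔ a⁻¹ ∈ A) ∧
    ∀ x y, (x, y) ∈ E → ∃ a ∈ A, y = x * a

/-- `E[S]`. -/
def ball (E : Set (G × G)) (S : Set G) : Set G := {y | ∃ x ∈ S, (x, y) ∈ E}

/-- `P` and `Q` are asymptotically disjoint. -/
def AsDisj (P Q : Set G) : Prop := ∀ E : Set (G × G), Entourage E → Bdd (ball E P ∩ ball E Q)

/-- `U` is an asymptotic neighbourhood of `P`. -/
def AsNhd (U P : Set G) : Prop := ∀ E : Set (G × G), Entourage E → Bdd (ball E P \ U)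

/-- The ballean of `G` is normal. -/
def Normal (G : Type u) [Group G] : Prop :=
  ∀ P Q : Set G, AsDisj P Q → ∃ U V : Set G, AsNhd U P ∧ AsNhd V Q ∧ AsDisj U V

end Pool.Agent.Q307.Bal
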