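import Pool.Agent.Q307.Bal.Defs

set_option autoImplicit false

namespace Pool.Agent.Q307.Bal

open Cardinal Set

universe u

variable {G : Type u} [Group G]

theorem mk_closure_lt (h : ℵ₀ < #G) {S : Set G} (hS : #S < #G) :
    #(Subgroup.closure S) < #G := by
  have h1 : #(Subgroup.closure S) ≤ #(FreeGroup S) := by
    rw [FreeGroup.closure_eq_range]
    exact mk_le_of_surjective (MonoidHom.rangeRestrict_surjective _)
  refine h1.trans_lt ?_
  rcases isEmpty_or_nonempty S with hE | hN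
  · exact (mk_le_aleph0).trans_lt h
  · rw [mk_freeGroup]
    exact max_lt hS h

theorem exists_not_mem_closure (h : ℵ₀ < #G) {S : Set G} (hS : #S < #G) :
    ∃ g : G, g ∉ Subgroup.closure S := by
  by_contra hcon
  push Not at hcon
  have h1 := mk_closure_lt h hS
  have h2 : #G ≤ #(Subgroup.closure S) := mk_le_of_injective (f := fun g => ⟨g, hcon g⟩)
    (fun a b hab => congrArg Subtype.val hab)
  exact absurd h1 (not_lt.mpr h2)

variable (G) in
/-- The index set. -/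
abbrev Ix : Type u := (#G).ord.ToType

theorem mk_ix : #(Ix G) = #G := by simp

theorem mk_Iio (i : Ix G) : #(Iio i) < #G := by
  have := mk_Iio_lt i (by simp)
  rwa [mk_ix] at this

theorem mk_Iic (h : ℵ₀ < #G) (i : Ix G) : #(Iic i) < #G := by
  have h1 : (Iic i : Set (Ix G)) = insert i (Iio i) := by
    rw [Iio_insert]
  rw [h1]
  refine (mk_insert_le).trans_lt ?_
  exact add_lt_of_lt h.le (mk_Iio i) ((one_lt_aleph0).trans h)

theorem gen (h : ℵ₀ < #G) (D : Ix G → Set G) (hD : ∀ i, #(D i) < #G) :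
    ∃ z : Ix G → G, ∀ i, z i ∉ Subgroup.closure (z '' Iio i ∪ D i) := by
  have h0 : ∀ S : Set G, ∃ g : G, #S < #G → g ∉ Subgroup.closure S := by
    intro S
    by_cases hS : #S < #G
    · obtain ⟨g, hg⟩ := exists_not_mem_closure h hS
      exact ⟨g, fun _ => hg⟩
    · exact ⟨1, fun h' => absurd h' hS⟩
  choose g hg using h0
  let z : Ix G → G := (wellFounded_lt (α := Ix G)).fix
    (fun i ih => g ({x | ∃ j, ∃ h : j < i, x = ih j h} ∪ D i))
  have hz : ∀ i, z i = g ({x | ∃ j, ∃ _ : j < i, x = z j} ∪ D i) := fun i =>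
    (wellFounded_lt (α := Ix G)).fix_eq
      (fun i ih => g ({x | ∃ j, ∃ h : j < i, x = ih j h} ∪ D i)) i
  refine ⟨z, fun i => ?_⟩
  have h1 : ({x | ∃ j, ∃ _ : j < i, x = z j} : Set G) = z '' Iio i := by
    ext x
    constructor
    · rintro ⟨j, hj, rfl⟩
      exact ⟨j, hj, rfl⟩
    · rintro ⟨j, hj, rfl⟩
      exact ⟨j, hj, rfl⟩
  have h3 := hz i
  rw [h1] at h3
  have h2 : #(z '' Iio i ∪ D i : Set G) < #G := by
    refine (mk_union_le _ _).trans_lt (add_lt_of_lt h.le ?_ (hD i))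
    exact mk_image_le.trans_lt (mk_Iio i)
  have := hg _ h2
  rwa [← h3] at this

/-- If the cardinal is singular, a function which is bounded on small sets is bounded. -/
theorem sup_lemma {κ : Cardinal.{u}} (h0 : ℵ₀ ≤ κ) (hs : ¬ κ.IsRegular) {I : Type u}
    (s : I → Cardinal.{u})
    (h : ∀ Y : Set I, #Y < κ → ∃ ν < κ, ∀ y ∈ Y, s y ≤ ν) : ∃ ν < κ, ∀ y, s y ≤ ν := by
  by_contra hcon
  push Not at hcon
  have hcof : κ.ord.cof < κ := by
    by_contra hc
    exact hs ⟨h0, not_lt.mp hc⟩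
  obtain ⟨ι, f, hf, hι⟩ := Ordinal.exists_lsub_cof κ.ord
  have h1 : ∀ i, ∃ y, (f i).card < s y := fun i => by
    refine hcon _ ?_
    rw [← Cardinal.lt_ord, ← hf]
    exact Ordinal.lt_lsub f i
  choose y hy using h1
  obtain ⟨ν, hν, hle⟩ := h (range y) (mk_range_le.trans_lt (hι ▸ hcof))
  have h2 : ν.ord < Ordinal.lsub f := by
    rw [hf]
    exact Cardinal.ord_lt_ord.mpr hν
  obtain ⟨i, hi⟩ := Ordinal.lt_lsub_iff.mp h2
  have h3 : ν ≤ (f i).card := Cardinal.ord_le.mp hi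
  exact absurd (h3.trans_lt (hy i)) (not_lt.mpr (hle _ (mem_range_self i)))

/-- The entourage of a set of small size. -/
def ent (S : Set G) : Set (G × G) := {p | ∃ s ∈ insert 1 (S ∪ (fun g : G => g⁻¹) '' S), p.2 = p.1 * s}

theorem ent_entourage (h : ℵ₀ < #G) {S : Set G} (hS : #S < #G) : Entourage (ent S) := by
  refine ⟨insert 1 (S ∪ (fun g : G => g⁻¹) '' S), ?_, mem_insert _ _, ?_, ?_⟩
  · refine (mk_insert_le).trans_lt (add_lt_of_lt h.le ?_ (one_lt_aleph0.trans h))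
    exact (mk_union_le _ _).trans_lt (add_lt_of_lt h.le hS (mk_image_le.trans_lt hS))
  · have key : ∀ a : G, a ∈ insert 1 (S ∪ (fun g : G => g⁻¹) '' S) →
        a⁻¹ ∈ insert 1 (S ∪ (fun g : G => g⁻¹) '' S) := by
      rintro a (rfl | ha | ⟨b, hb, rfl⟩)
      · left
        exact inv_one
      · exact Or.inr (Or.inr ⟨a, ha, rfl⟩)
      · right; left
        simpa using hb
    intro a
    refine ⟨key a, fun ha => ?_⟩
    have := key _ ha
    rwa [inv_inv] at this
  · rintro x y ⟨s, hs, he⟩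
    exact ⟨s, hs, he⟩

/-- Four different elements of a generic sequence. -/
theorem four {c : Ix G → G} (hc : ∀ i, c i ∉ Subgroup.closure (c '' Iio i))
    {i j i' j' : Ix G} (h1 : i ≠ j) (h2 : i' ≠ j') (h3 : i' ≠ j) (h4 : i ≠ j') (h5 : i ≠ i')
    (h6 : j ≠ j') (h : c j * (c i)⁻¹ = c j' * (c i')⁻¹) : False := by
  obtain ⟨m, hm, hmax⟩ : ∃ m ∈ ({i, j, i', j'} : Finset (Ix G)), ∀ n ∈ ({i, j, i', j'} :
      Finset (Ix G)), n ≤ m :=
    ({i, j, i', j'} : Finset (Ix G)).exists_max_image id ⟨i, by simp⟩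
  simp only [Finset.mem_insert, Finset.mem_singleton, forall_eq_or_imp, forall_eq] at hm hmax
  obtain ⟨g1, g2, g3, g4⟩ := hmax
  have hin : ∀ n, n < m → c n ∈ Subgroup.closure (c '' Iio m) := fun n hn =>
    Subgroup.subset_closure ⟨n, hn, rfl⟩
  rcases hm with rfl | rfl | rfl | rfl
  · have e : c m = (c j' * (c i')⁻¹)⁻¹ * c j := by
      rw [← h]; group
    apply hc m
    rw [e]
    exact mul_mem (inv_mem (mul_mem (hin _ (lt_of_le_of_ne g4 h4.symm))
      (inv_mem (hin _ (lt_of_le_of_ne g3 h5.symm))))) (hin _ (lt_of_le_of_ne g2 h1.symm))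
  · have e : c m = c j' * (c i')⁻¹ * c i := by
      rw [← h]; group
    apply hc m
    rw [e]
    exact mul_mem (mul_mem (hin _ (lt_of_le_of_ne g4 h6.symm))
      (inv_mem (hin _ (lt_of_le_of_ne g3 h3)))) (hin _ (lt_of_le_of_ne g1 h1))
  · have e : c m = (c j * (c i)⁻¹)⁻¹ * c j' := by
      rw [h]; group
    apply hc m
    rw [e]
    exact mul_mem (inv_mem (mul_mem (hin _ (lt_of_le_of_ne g2 h3.symm))
      (inv_mem (hin _ (lt_of_le_of_ne g1 h5))))) (hin _ (lt_of_le_of_ne g4 h2.symm))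
  · have e : c m = c j * (c i)⁻¹ * c i' := by
      rw [h]; group
    apply hc m
    rw [e]
    exact mul_mem (mul_mem (hin _ (lt_of_le_of_ne g2 h6))
      (inv_mem (hin _ (lt_of_le_of_ne g1 h4)))) (hin _ (lt_of_le_of_ne g3 h2))

theorem gen_injective {c : Ix G → G} {D : Ix G → Set G}
    (hc : ∀ i, c i ∉ Subgroup.closure (c '' Iio i ∪ D i)) : Function.Injective c := by
  have key : ∀ i j : Ix G, i < j → c i ≠ c j := by
    intro i j hij he
    apply hc j
    rw [← he]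
    exact Subgroup.subset_closure (Or.inl ⟨i, hij, rfl⟩)
  intro i j hij
  rcases lt_trichotomy i j with h | h | h
  · exact absurd hij (key i j h)
  · exact h
  · exact absurd hij.symm (key j i h)

/-- The generic families. -/
theorem exists_families (h : ℵ₀ < #G) : ∃ (a b : Ix G → G) (z : Ix G → Ix G → G),
    (∀ x y x' y', z x y = z x' y' → x = x' ∧ y = y') ∧
    ∀ e : G, {g : G × G | ∃ x y x' y', g.1 = z x y * (b y)⁻¹ ∧ g.2 = z x' y' * (a x')⁻¹ ∧
      g.1⁻¹ * g.2 = e}.Countable := by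
  have hI0 : ℵ₀ ≤ #(Ix G) := by rw [mk_ix]; exact h.le
  obtain ⟨e2⟩ : Nonempty (Ix G ≃ Ix G ⊕ Ix G) := by
    rw [← Cardinal.eq, mk_sum, lift_id, add_eq_self hI0]
  obtain ⟨pr⟩ : Nonempty (Ix G ≃ Ix G × Ix G) := by
    rw [← Cardinal.eq, mk_prod, lift_id, mul_eq_self hI0]
  obtain ⟨c, hc0⟩ := gen h (fun _ => (∅ : Set G)) (fun i => by
    rw [mk_emptyCollection]; exact (aleph0_pos).trans h)
  have hc : ∀ i, c i ∉ Subgroup.closure (c '' Iio i) := by simpa using hc0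
  have hci : Function.Injective c := gen_injective hc0
  set a : Ix G → G := fun x => c (e2.symm (Sum.inl x)) with ha
  set b : Ix G → G := fun y => c (e2.symm (Sum.inr y)) with hb
  have hab : ∀ x y x' y', b y * (a x)⁻¹ = b y' * (a x')⁻¹ → x = x' ∧ y = y' := by
    intro x y x' y' he
    have n1 : ∀ x y : Ix G, e2.symm (Sum.inl x) ≠ e2.symm (Sum.inr y) := by
      intro x y hxy
      have := e2.symm.injective hxy
      cases this
    by_cases hx : x = x'
    · subst hx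
      refine ⟨rfl, ?_⟩
      have := hci (mul_right_cancel he)
      exact Sum.inr_injective (e2.symm.injective this)
    · by_cases hy : y = y'
      · subst hy
        refine ⟨?_, rfl⟩
        have := hci (inv_injective (mul_left_cancel he))
        exact Sum.inl_injective (e2.symm.injective this)
      · exfalso
        refine four hc (n1 x y) (n1 x' y') (n1 x' y) (n1 x y') ?_ ?_ he
        · exact fun hh => hx (Sum.inl_injective (e2.symm.injective hh))
        · exact fun hh => hy (Sum.inr_injective (e2.symm.injective hh))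
  obtain ⟨w, hw⟩ := gen h (fun i => (fun j => a (pr j).1) '' Iic i ∪ (fun j => b (pr j).2) '' Iic i)
    (fun i => (mk_union_le _ _).trans_lt (add_lt_of_lt h.le
      (mk_image_le.trans_lt (mk_Iic h i)) (mk_image_le.trans_lt (mk_Iic h i))))
  set A : Ix G → G := fun j => a (pr j).1 with hA
  set B : Ix G → G := fun j => b (pr j).2 with hB
  set H : Ix G → Subgroup G := fun i => Subgroup.closure (w '' Iio i ∪ (A '' Iic i ∪ B '' Iic i))
    with hH
  have hwH : ∀ i, w i ∉ H i := hw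
  have hw1 : ∀ {i j}, i < j → w i ∈ H j := fun {i j} hij =>
    Subgroup.subset_closure (Or.inl ⟨i, hij, rfl⟩)
  have hA1 : ∀ {i j}, i ≤ j → A i ∈ H j := fun {i j} hij =>
    Subgroup.subset_closure (Or.inr (Or.inl ⟨i, hij, rfl⟩))
  have hB1 : ∀ {i j}, i ≤ j → B i ∈ H j := fun {i j} hij =>
    Subgroup.subset_closure (Or.inr (Or.inr ⟨i, hij, rfl⟩))
  have hwi : Function.Injective w := gen_injective hw
  -- the elements of `P` and of `Q` are determined
  have hP : ∀ i j, i < j → w i * (B i)⁻¹ ≠ w j * (B j)⁻¹ := by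
    intro i j hij he
    apply hwH j
    have : w j = w i * (B i)⁻¹ * B j := by rw [he]; group
    rw [this]
    exact mul_mem (mul_mem (hw1 hij) (inv_mem (hB1 hij.le))) (hB1 le_rfl)
  have hQ : ∀ i j, i < j → w i * (A i)⁻¹ ≠ w j * (A j)⁻¹ := by
    intro i j hij he
    apply hwH j
    have : w j = w i * (A i)⁻¹ * A j := by rw [he]; group
    rw [this]
    exact mul_mem (mul_mem (hw1 hij) (inv_mem (hA1 hij.le))) (hA1 le_rfl)
  have hPi : Function.Injective fun i => w i * (B i)⁻¹ := by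
    intro i j hij
    rcases lt_trichotomy i j with h' | h' | h'
    · exact absurd hij (hP i j h')
    · exact h'
    · exact absurd hij.symm (hP j i h')
  have hQi : Function.Injective fun i => w i * (A i)⁻¹ := by
    intro i j hij
    rcases lt_trichotomy i j with h' | h' | h'
    · exact absurd hij (hQ i j h')
    · exact h'
    · exact absurd hij.symm (hQ j i h')
  refine ⟨a, b, fun x y => w (pr.symm (x, y)), ?_, fun e => ?_⟩
  · intro x y x' y' he
    have := pr.symm.injective (hwi he)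
    exact ⟨congrArg Prod.fst this, congrArg Prod.snd this⟩
  -- three classes of solutions
  set S : Set (Ix G × Ix G) := {p | (w p.1 * (B p.1)⁻¹)⁻¹ * (w p.2 * (A p.2)⁻¹) = e} with hS
  have hc1 : (S ∩ {p | p.1 < p.2}).Subsingleton := by
    have key : ∀ p q : Ix G × Ix G, p ∈ S → q ∈ S → p.1 < p.2 → q.1 < q.2 → ¬ p.2 < q.2 := by
      intro p q hp hq h1 h2 h3
      apply hwH q.2
      have hpe : e ∈ H q.2 := by
        rw [← (hp : (w p.1 * (B p.1)⁻¹)⁻¹ * (w p.2 * (A p.2)⁻¹) = e)]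
        exact mul_mem (inv_mem (mul_mem (hw1 (h1.trans h3)) (inv_mem (hB1 (h1.trans h3).le))))
          (mul_mem (hw1 h3) (inv_mem (hA1 h3.le)))
      have : w q.2 = (w q.1 * (B q.1)⁻¹) * e * A q.2 := by
        rw [← (hq : (w q.1 * (B q.1)⁻¹)⁻¹ * (w q.2 * (A q.2)⁻¹) = e)]
        group
      rw [this]
      exact mul_mem (mul_mem (mul_mem (hw1 h2) (inv_mem (hB1 h2.le))) hpe) (hA1 le_rfl)
    rintro p ⟨hp, hp'⟩ q ⟨hq, hq'⟩
    have h2 : p.2 = q.2 := le_antisymm (not_lt.mp (key q p hq hp hq' hp'))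
      (not_lt.mp (key p q hp hq hp' hq'))
    have h1 : p.1 = q.1 := by
      apply hPi
      have e1 := (hp : (w p.1 * (B p.1)⁻¹)⁻¹ * (w p.2 * (A p.2)⁻¹) = e).trans
        (hq : (w q.1 * (B q.1)⁻¹)⁻¹ * (w q.2 * (A q.2)⁻¹) = e).symm
      rw [h2] at e1
      exact inv_injective (mul_right_cancel e1)
    exact Prod.ext h1 h2
  have hc2 : (S ∩ {p | p.2 < p.1}).Subsingleton := by
    have key : ∀ p q : Ix G × Ix G, p ∈ S → q ∈ S → p.2 < p.1 → q.2 < q.1 → ¬ p.1 < q.1 := by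
      intro p q hp hq h1 h2 h3
      apply hwH q.1
      have hpe : e ∈ H q.1 := by
        rw [← (hp : (w p.1 * (B p.1)⁻¹)⁻¹ * (w p.2 * (A p.2)⁻¹) = e)]
        exact mul_mem (inv_mem (mul_mem (hw1 h3) (inv_mem (hB1 h3.le))))
          (mul_mem (hw1 (h1.trans h3)) (inv_mem (hA1 (h1.trans h3).le)))
      have : w q.1 = (w q.2 * (A q.2)⁻¹) * e⁻¹ * B q.1 := by
        rw [← (hq : (w q.1 * (B q.1)⁻¹)⁻¹ * (w q.2 * (A q.2)⁻¹) = e)]
        group
      rw [this]
      exact mul_mem (mul_mem (mul_mem (hw1 h2) (inv_mem (hA1 h2.le))) (inv_mem hpe)) (hB1 le_rfl)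
    rintro p ⟨hp, hp'⟩ q ⟨hq, hq'⟩
    have h2 : p.1 = q.1 := le_antisymm (not_lt.mp (key q p hq hp hq' hp'))
      (not_lt.mp (key p q hp hq hp' hq'))
    have h1 : p.2 = q.2 := by
      apply hQi
      have e1 := (hp : (w p.1 * (B p.1)⁻¹)⁻¹ * (w p.2 * (A p.2)⁻¹) = e).trans
        (hq : (w q.1 * (B q.1)⁻¹)⁻¹ * (w q.2 * (A q.2)⁻¹) = e).symm
      rw [h2] at e1
      exact mul_left_cancel e1
    exact Prod.ext h2 h1
  have hc3 : (S ∩ {p | p.1 = p.2}).Subsingleton := by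
    rintro ⟨p, p'⟩ ⟨hp, hp'⟩ ⟨q, q'⟩ ⟨hq, hq'⟩
    have hp2 : p = p' := hp'
    have hq2 : q = q' := hq'
    subst hp2 hq2
    have hp3 : (w p * (B p)⁻¹)⁻¹ * (w p * (A p)⁻¹) = e := hp
    have hq3 : (w q * (B q)⁻¹)⁻¹ * (w q * (A q)⁻¹) = e := hq
    have e1 : B p * (A p)⁻¹ = B q * (A q)⁻¹ := by
      have l1 : B p * (A p)⁻¹ = (w p * (B p)⁻¹)⁻¹ * (w p * (A p)⁻¹) := by group
      have l2 : B q * (A q)⁻¹ = (w q * (B q)⁻¹)⁻¹ * (w q * (A q)⁻¹) := by group
      rw [l1, l2, hp3, hq3]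
    obtain ⟨e2, e3⟩ := hab _ _ _ _ e1
    have : pr p = pr q := Prod.ext e2 e3
    have := pr.injective this
    subst this
    rfl
  have hSc : S.Countable := by
    have : S ⊆ (S ∩ {p | p.1 < p.2}) ∪ (S ∩ {p | p.2 < p.1}) ∪ (S ∩ {p | p.1 = p.2}) := by
      intro p hp
      rcases lt_trichotomy p.1 p.2 with h' | h' | h'
      · exact Or.inl (Or.inl ⟨hp, h'⟩)
      · exact Or.inr ⟨hp, h'⟩
      · exact Or.inl (Or.inr ⟨hp, h'⟩)
    exact ((hc1.countable.union hc2.countable).union hc3.countable).mono this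
  refine (hSc.image fun p => (w p.1 * (B p.1)⁻¹, w p.2 * (A p.2)⁻¹)).mono ?_
  rintro ⟨g1, g2⟩ ⟨x, y, x', y', h1, h2, h3⟩
  refine ⟨(pr.symm (x, y), pr.symm (x', y')), ?_, ?_⟩
  · simp only [hS, mem_setOf_eq, hA, hB, Equiv.apply_symm_apply]
    simp only at h1 h2 h3
    rw [← h1, ← h2]
    exact h3
  · simp only [hA, hB, Equiv.apply_symm_apply]
    simp only at h1 h2
    rw [← h1, ← h2]

theorem regular_of_normal [Infinite G] (hN : Normal G) : (#G).IsRegular := by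
  by_contra hreg
  have h0 : ℵ₀ ≤ #G := aleph0_le_mk G
  have h : ℵ₀ < #G := lt_of_le_of_ne h0 fun he => hreg (he ▸ isRegular_aleph0)
  obtain ⟨a, b, z, hz, hcount⟩ := exists_families h
  obtain ⟨U, V, hU, hV, hUV⟩ := hN {p | ∃ x y, p = z x y * (b y)⁻¹} {q | ∃ x y, q = z x y * (a x)⁻¹}
    (by
      rintro E ⟨A, hA, -, -, hE⟩
      have hsub : ball E {p | ∃ x y, p = z x y * (b y)⁻¹} ∩ ball E {q | ∃ x y, q = z x y * (a x)⁻¹} ⊆
          ⋃ cd : A × A, (fun g : G × G => g.1 * cd.1.1) ''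
            {g : G × G | ∃ x y x' y', g.1 = z x y * (b y)⁻¹ ∧ g.2 = z x' y' * (a x')⁻¹ ∧
              g.1⁻¹ * g.2 = cd.1.1 * (cd.2.1)⁻¹} := by
        rintro g ⟨⟨p, ⟨x, y, hp⟩, hpg⟩, q, ⟨x', y', hq⟩, hqg⟩
        obtain ⟨c, hc, hc'⟩ := hE p g hpg
        obtain ⟨d, hd, hd'⟩ := hE q g hqg
        refine mem_iUnion.mpr ⟨(⟨c, hc⟩, ⟨d, hd⟩), (p, q), ⟨x, y, x', y', hp, hq, ?_⟩, hc'.symm⟩
        have : p * c = q * d := hc'.symm.trans hd'
        have e1 : q = p * c * d⁻¹ := by rw [this]; group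
        simp only [e1]
        group
      refine (mk_le_mk_of_subset hsub).trans_lt ((mk_iUnion_le _).trans_lt ?_)
      refine mul_lt_of_lt h0 ?_ (lt_of_le_of_lt (ciSup_le' fun cd => ?_) h)
      · rw [mk_prod, lift_id]
        exact mul_lt_of_lt h0 hA hA
      · exact le_aleph0_iff_set_countable.mpr ((hcount _).image _))
  have hUs : ∀ Y : Set (Ix G), #Y < #G → ∃ ν < #G, ∀ y ∈ Y, #{x | z x y ∉ U} ≤ ν := by
    intro Y hY
    refine ⟨_, hU (ent (b '' Y)) (ent_entourage h (mk_image_le.trans_lt hY)), fun y hy => ?_⟩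
    refine mk_le_of_injective (f := fun x : {x | z x y ∉ U} => ⟨z x.1 y, ?_, x.2⟩) ?_
    · refine ⟨z x.1 y * (b y)⁻¹, ⟨x.1, y, rfl⟩, b y, Or.inr (Or.inl ⟨y, hy, rfl⟩), ?_⟩
      simp
    · intro x x' hxx
      exact Subtype.ext (hz _ _ _ _ (congrArg Subtype.val hxx)).1
  have hVs : ∀ X : Set (Ix G), #X < #G → ∃ ν < #G, ∀ x ∈ X, #{y | z x y ∉ V} ≤ ν := by
    intro X hX
    refine ⟨_, hV (ent (a '' X)) (ent_entourage h (mk_image_le.trans_lt hX)), fun x hx => ?_⟩
    refine mk_le_of_injective (f := fun y : {y | z x y ∉ V} => ⟨z x y.1, ?_, y.2⟩) ?_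
    · refine ⟨z x y.1 * (a x)⁻¹, ⟨x, y.1, rfl⟩, a x, Or.inr (Or.inl ⟨x, hx, rfl⟩), ?_⟩
      simp
    · intro y y' hyy
      exact Subtype.ext (hz _ _ _ _ (congrArg Subtype.val hyy)).2
  obtain ⟨ν1, hν1, hU1⟩ := sup_lemma h0 hreg _ hUs
  obtain ⟨ν2, hν2, hV1⟩ := sup_lemma h0 hreg _ hVs
  set ν := max ℵ₀ (max ν1 ν2) with hν
  have hνlt : ν < #G := max_lt h (max_lt hν1 hν2)
  have hsucc : Order.succ ν < #G := by
    refine lt_of_le_of_ne (Order.succ_le_of_lt hνlt) fun he => hreg ?_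
    rw [← he]
    exact isRegular_succ (le_max_left _ _)
  obtain ⟨Y0, hY0⟩ := le_mk_iff_exists_set.mp (show Order.succ ν ≤ #(Ix G) by
    rw [mk_ix]; exact hsucc.le)
  have hyx : ∀ x, ∃ y ∈ Y0, z x y ∈ V := by
    intro x
    by_contra hcon
    push Not at hcon
    have h1 : #Y0 ≤ ν := (mk_le_mk_of_subset (fun y hy => hcon y hy)).trans
      ((hV1 x).trans ((le_max_right _ _).trans (le_max_right _ _)))
    rw [hY0] at h1
    exact absurd (Order.lt_succ ν) (not_lt.mpr h1)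
  choose y hy0 hyV using hyx
  have hbad : #{x | z x (y x) ∉ U} < #G := by
    have hsub : {x | z x (y x) ∉ U} ⊆ ⋃ t : Y0, {x | z x t.1 ∉ U} := fun x hx =>
      mem_iUnion.mpr ⟨⟨y x, hy0 x⟩, hx⟩
    refine (mk_le_mk_of_subset hsub).trans_lt ((mk_iUnion_le _).trans_lt ?_)
    refine mul_lt_of_lt h0 (hY0 ▸ hsucc) (lt_of_le_of_lt (ciSup_le' fun t => hU1 t.1) hν1)
  have hgood : #{x | z x (y x) ∈ U} < #G := by
    have h1 : Bdd (U ∩ V) := by
      have h2 := hUV (ent ∅) (ent_entourage h (by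
        rw [mk_emptyCollection]; exact aleph0_pos.trans h))
      refine lt_of_le_of_lt (mk_le_mk_of_subset ?_) h2
      rintro g ⟨g1, g2⟩
      exact ⟨⟨g, g1, 1, mem_insert _ _, (mul_one g).symm⟩, g, g2, 1, mem_insert _ _,
        (mul_one g).symm⟩
    refine lt_of_le_of_lt ?_ h1
    refine mk_le_of_injective (f := fun x : {x | z x (y x) ∈ U} =>
      (⟨z x.1 (y x.1), x.2, hyV x.1⟩ : (U ∩ V : Set G))) ?_
    intro x x' hxx
    exact Subtype.ext (hz _ _ _ _ (congrArg Subtype.val hxx)).1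
  have hall : #(Ix G) ≤ #{x | z x (y x) ∈ U} + #{x | z x (y x) ∉ U} := by
    have h1 : (univ : Set (Ix G)) = {x | z x (y x) ∈ U} ∪ {x | z x (y x) ∉ U} := by
      ext x
      simp [em]
    rw [← mk_univ, h1]
    exact mk_union_le _ _
  rw [mk_ix] at hall
  exact absurd (add_lt_of_lt h0 hgood hbad) (not_lt.mpr hall)

end Pool.Agent.Q307.Bal
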